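import Pool.Agent.Lib.MP_ebcb3a_lc.Final
import Pool.Agent.Lib.MP_ebcb3a_lc.Machine

/-!
For every model `M` of the `Pi_2` theorems of PA, the theory HA + Diag(M) has the existence property.
The language `L` is `0, S, +, *` with any family of primitive recursive function symbols;
`Lang.basic` is the case of no further symbol.
-/

namespace Pool.Agent.Results.MP_ebcb3a_lc.ExistenceProperty

open Pool.Agent.HAEP

universe v

theorem result (L : Lang) (M : Str.{v} L.F) (hM : ModelsPi2PA L M) :
    ExistenceProperty (HA L M.N ∪ Diag M) :=
  exists_machine.elim fun K => ep_of_machine K hM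

end Pool.Agent.Results.MP_ebcb3a_lc.ExistenceProperty
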